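import Pool.Agent.Helper57.ZF.Goals

set_option autoImplicit false

namespace Pool.Agent.Helper88.ZF

open Pool.Agent.Helper57.ZF

open scoped Classical in
/-- packing numbers -/
noncomputable def pk {M : Type} [MetricSpace M] (L : Finset M) (m : ℤ) : ℕ :=
  (L.powerset.filter (fun T => ∀ x ∈ T, ∀ y ∈ T, x ≠ y → (2 : ℝ) ^ m ≤ dist x y)).sup Finset.card

theorem le_pk {M : Type} [MetricSpace M] (L T : Finset M) (m : ℤ) (hT : T ⊆ L)
    (h : ∀ x ∈ T, ∀ y ∈ T, x ≠ y → (2 : ℝ) ^ m ≤ dist x y) : T.card ≤ pk L m := by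
  classical
  unfold pk
  refine Finset.le_sup (f := Finset.card) ?_
  rw [Finset.mem_filter, Finset.mem_powerset]
  exact ⟨hT, h⟩

theorem pk_attained {M : Type} [MetricSpace M] (L : Finset M) (m : ℤ) :
    ∃ T ⊆ L, (∀ x ∈ T, ∀ y ∈ T, x ≠ y → (2 : ℝ) ^ m ≤ dist x y) ∧ T.card = pk L m := by
  classical
  have hne : (L.powerset.filter (fun T => ∀ x ∈ T, ∀ y ∈ T, x ≠ y →
      (2 : ℝ) ^ m ≤ dist x y)).Nonempty := by
    refine ⟨∅, ?_⟩
    rw [Finset.mem_filter, Finset.mem_powerset]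
    exact ⟨Finset.empty_subset _, by simp⟩
  obtain ⟨T, hT, h⟩ := Finset.exists_mem_eq_sup _ hne Finset.card
  rw [Finset.mem_filter, Finset.mem_powerset] at hT
  refine ⟨T, hT.1, hT.2, ?_⟩
  unfold pk
  rw [← h]

theorem PN (hPK : G_PK) (hTEL : G_TEL) : G_PN := by
  intro M _ hM
  obtain ⟨N, hN, hpk⟩ := hPK M hM
  refine ⟨13 * N, fun L I A hA => ?_⟩
  have h := hTEL (fun m => N * pk L m) (N * L.card) I (fun m => (A m).card) ?_ ?_ ?_
  · calc ∑ m ∈ I, (A m).card ≤ 13 * (N * L.card) := h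
      _ = 13 * N * L.card := by ring
  · intro m m' hmm
    obtain ⟨T, hT, h1, h2⟩ := pk_attained L m'
    show N * pk L m' ≤ N * pk L m
    rw [← h2]
    refine Nat.mul_le_mul_left _ (le_pk L T m hT (fun x hx y hy hxy => ?_))
    exact le_trans (zpow_le_zpow_right₀ (by norm_num) hmm) (h1 x hx y hy hxy)
  · intro m
    obtain ⟨T, hT, -, h2⟩ := pk_attained L m
    show N * pk L m ≤ N * L.card
    rw [← h2]
    exact Nat.mul_le_mul_left _ (Finset.card_le_card hT)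
  · intro m hm
    obtain ⟨hAL, hAs, hAn⟩ := hA m hm
    obtain ⟨T, hT, h1, h2⟩ := pk_attained L (m + 8)
    have hs : (0 : ℝ) < (2 : ℝ) ^ m := by positivity
    have h8 : (2 : ℝ) ^ (m + 8) = 256 * (2 : ℝ) ^ m := by
      rw [zpow_add₀ (by norm_num : (2 : ℝ) ≠ 0)]
      norm_num
      ring
    have h5 : (2 : ℝ) ^ (m - 5) = (2 : ℝ) ^ m / 32 := by
      rw [zpow_sub₀ (by norm_num : (2 : ℝ) ≠ 0)]
      norm_num
    obtain ⟨T', hT', h3, h4⟩ := hpk L T (A m) ((2 : ℝ) ^ m) hs hT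
      (fun x hx y hy hxy => by rw [← h8]; exact h1 x hx y hy hxy) hAL hAs hAn
    show N * pk L (m + 8) + (A m).card ≤ N * pk L (m - 5)
    rw [← h2]
    refine le_trans h4 (Nat.mul_le_mul_left _ (le_pk L T' (m - 5) hT' ?_))
    intro x hx y hy hxy
    rw [h5]
    exact h3 x hx y hy hxy

end Pool.Agent.Helper88.ZF
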